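import Pool.Agent.H.MP_2e716c_an.helper20.B9

/-!
# Hyperbolicity of semi-dispersive billiard tables: barriers in the direction group

`T : SemiDisp n` is a semi-dispersive billiard table `T.Y` over a simple polygon `T.P` with `n` sides
(definitions in `Pool.Agent.H.MP_2e716c_an.Defs`).  A neutral side is *exposed* if, prolonged beyond one of
its two ends (the end included) within the closed table, it does not meet another neutral side.  The
table is *barred* if for some unit vectors `b` and `ν`

* (one-sided) every neutral side is parallel to `b`, or has inner normal `-ν` or minus the mirror image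
  of `ν` in the line of `b`, or is exposed and has inner normal `ν` or the mirror image of `ν`; or
* (two-sided) every neutral side is parallel or perpendicular to `b`, or is exposed and has normal `±ν`
  or `±` the mirror image of `ν`.

Barred tables are hyperbolic.  Neighbouring neutral sides may make any angle.

Method.  By the hand-in `Hyperbolic` it is enough that almost no orbit is trapped, that is, hits only a
set `S` of neutral sides.  Trapped orbits with finitely many directions are null (interval exchange with
exits).  The directions of a trapped orbit perform a walk on `ℤ × {±1}` in which the side hit at the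
step from `m` to `m + 1` makes the angle `θ + (2 m + 1) φ` with the direction.  If `φ / π` is irrational
these angles come arbitrarily close to `0`, on both sides of `m = 0`, and exposed sides are not hit by
trapped orbits at small angles; in the one-sided case the step to a smaller (larger) `m` at such a
place is impossible in one sense because the sides would be hit from behind.  So the walk is bounded.
-/

open Pool.Agent.MP2e716c

namespace Pool.Agent.Results.MP_2e716c_an.Barriers

theorem result {n : ℕ} [NeZero n] (T : SemiDisp n) (h : T.Y.Barred T.dispᶜ) : T.Y.Hyperbolic :=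
  T.hyperbolic_of_barred h

/-- In a convex polygon without straight corners a neutral side next to a dispersive side is
exposed. -/
theorem exposed_of_adjacent {n : ℕ} [NeZero n] (T : SemiDisp n) (hconv : Convex ℝ T.P.region)
    (hcorner : ∀ i, deriv (T.P.γ (i + 1)) 0 ≠ deriv (T.P.γ i) 0) {i : Fin n} (hi : i ∉ T.disp)
    (h : i + 1 ∈ T.disp ∨ i - 1 ∈ T.disp) : T.Y.Exposed T.dispᶜ i :=
  T.exposed_of_adjacent hconv hcorner hi h

/-- Convex polygon without straight corners, the neutral sides are parallel to two directions: for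
instance every parallelogram with corners cut off by dispersive sides. -/
theorem two_directions {n : ℕ} [NeZero n] (T : SemiDisp n) (hconv : Convex ℝ T.P.region)
    (hcorner : ∀ i, deriv (T.P.γ (i + 1)) 0 ≠ deriv (T.P.γ i) 0) (u w : ℂ)
    (h : ∀ i, i ∉ T.disp → (deriv (T.P.γ i) 0 = u ∨ deriv (T.P.γ i) 0 = -u) ∨
      (deriv (T.P.γ i) 0 = w ∨ deriv (T.P.γ i) 0 = -w)) : T.Y.Hyperbolic :=
  T.hyperbolic_of_two_directions hconv hcorner u w h

/-- Convex polygon without straight corners, a neutral side `i` next to a dispersive side, a second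
one `j` whose inner normal is the mirror image of that of `i` in a line perpendicular to `b`, all other
neutral sides parallel to `b`. -/
theorem legs {n : ℕ} [NeZero n] (T : SemiDisp n) (hconv : Convex ℝ T.P.region)
    (hcorner : ∀ i, deriv (T.P.γ (i + 1)) 0 ≠ deriv (T.P.γ i) 0) {i j : Fin n} (hi : i ∉ T.disp)
    (hadj : i + 1 ∈ T.disp ∨ i - 1 ∈ T.disp) {b : ℂ} (hb : ‖b‖ = 1)
    (hij : b ^ 2 = deriv (T.P.γ i) 0 * deriv (T.P.γ j) 0)
    (h : ∀ k, k ∉ T.disp → k = i ∨ k = j ∨ deriv (T.P.γ k) 0 = b ∨ deriv (T.P.γ k) 0 = -b) :
    T.Y.Hyperbolic :=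
  T.hyperbolic_of_legs hconv hcorner hi hadj hb hij h

/-- Convex polygon without straight corners, a neutral side next to a dispersive side, all other
neutral sides parallel or perpendicular to `b`. -/
theorem rectangular {n : ℕ} [NeZero n] (T : SemiDisp n) (hconv : Convex ℝ T.P.region)
    (hcorner : ∀ i, deriv (T.P.γ (i + 1)) 0 ≠ deriv (T.P.γ i) 0) {i : Fin n} (hi : i ∉ T.disp)
    (hadj : i + 1 ∈ T.disp ∨ i - 1 ∈ T.disp) {b : ℂ} (hb : ‖b‖ = 1)
    (h : ∀ k, k ∉ T.disp → k = i ∨ (deriv (T.P.γ k) 0 = b ∨ deriv (T.P.γ k) 0 = -b) ∨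
      (deriv (T.P.γ k) 0 = Complex.I * b ∨ deriv (T.P.γ k) 0 = -(Complex.I * b))) :
    T.Y.Hyperbolic :=
  T.hyperbolic_of_rect hconv hcorner hi hadj hb h

/-- Every isosceles triangle one corner of which is cut off by a dispersive side. -/
theorem isosceles (T : SemiDisp 4) (hconv : Convex ℝ T.P.region)
    (hcorner : ∀ i, deriv (T.P.γ (i + 1)) 0 ≠ deriv (T.P.γ i) 0) (h0 : T.disp = {0})
    (h : deriv (T.P.γ 1) 0 ^ 2 = deriv (T.P.γ 2) 0 * deriv (T.P.γ 3) 0 ∨
      deriv (T.P.γ 2) 0 ^ 2 = deriv (T.P.γ 1) 0 * deriv (T.P.γ 3) 0 ∨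
      deriv (T.P.γ 3) 0 ^ 2 = deriv (T.P.γ 1) 0 * deriv (T.P.γ 2) 0) : T.Y.Hyperbolic :=
  T.hyperbolic_isosceles hconv hcorner h0 h

/-- Every right triangle a corner of which, not the right one, is cut off by a dispersive side. -/
theorem right_triangle (T : SemiDisp 4) (hconv : Convex ℝ T.P.region)
    (hcorner : ∀ i, deriv (T.P.γ (i + 1)) 0 ≠ deriv (T.P.γ i) 0) (h0 : T.disp = {0})
    (h : deriv (T.P.γ 2) 0 = Complex.I * deriv (T.P.γ 1) 0 ∨
      deriv (T.P.γ 3) 0 = Complex.I * deriv (T.P.γ 2) 0) : T.Y.Hyperbolic :=
  T.hyperbolic_right hconv hcorner h0 h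

end Pool.Agent.Results.MP_2e716c_an.Barriers
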