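import Pool.Agent.H.MP_2e716c_an.nb.DenseMain2

/-!
# Convex semi-dispersive billiards: nonzero exponents on an open dense set

`T : SemiDisp n` is a semi-dispersive billiard table `T.Y` over a simple polygon `T.P` with `n` sides
(definitions in `Pool.Agent.H.MP_2e716c_an.Defs`).  Let the polygon be convex without straight corners.
Let `α` be the angle at a corner between two neighbouring neutral sides, and let `β` be the angle under
which some dispersive side is seen from this corner.  The hypothesis is that `2 a α` is no integer
multiple of `π` for all integers `1 ≤ a < π / β`.  So all `α` outside `πℚ` are allowed, and for given `β`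
all `α` but finitely many.  There is no condition on the other corners and on the number, the directions
and the lengths of the sides.

Then an open and dense set `W` of phase points consists of orbits which meet a dispersive side, for
almost every direction it is dense even among the foot points with this direction, and almost everywhere
in `W` no Lyapunov exponent vanishes.  In particular trapped orbits (which only meet neutral sides) do
not fill an open set, nor an interval of foot points in one of almost all directions.

Method.  `D` is the set of directions at a neutral corner whose ray meets a dispersive side.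
*No births:* for almost all directions, if the parallel lines on one side of an outgoing ray come from a
dispersive side, then the ray itself meets a dispersive side.  Otherwise the corners which come closer to
the ray than all earlier ones form an infinite sequence (a ray with a one-sided strip free of corners has
one of a null, porous set of directions); each of them gives, backwards, a ray from a corner which meets
a dispersive side and for which the corner of the original ray is the closest one; these pairs are
disjoint, so the total measure is finite, and Borel-Cantelli gives a contradiction.  So `D` is invariant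
up to null sets under the rotation by `π` of the circle of length twice the angle of the corner.  It
contains an interval of length `β`, and under the hypothesis the orbits of the rotation are `β`-dense or
dense, so `D` has full measure.  In almost every direction the lines which meet a corner are dense, since
lines which stay together for ever with a whole interval of parallel lines have one of a null set of
directions; and their neighbours meet a dispersive side.
-/

open Pool.Agent.MP2e716c Set MeasureTheory Filter Topology

namespace Pool.Agent.Results.MP_2e716c_an.DenseHyperbolic

theorem result {n : ℕ} [NeZero n] (T : SemiDisp n) (hconv : Convex ℝ T.P.region)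
    (hcorner : ∀ i, deriv (T.P.γ (i + 1)) 0 ≠ deriv (T.P.γ i) 0)
    (hang : ∀ i, i ∉ T.disp → i + 1 ∉ T.disp → ∃ d ∈ T.disp, ∀ a : ℕ, 0 < a →
      a * InnerProductGeometry.angle (T.P.γ d 0 - T.P.γ (i + 1) 0)
        (T.P.γ (d + 1) 0 - T.P.γ (i + 1) 0) < Real.pi →
      deriv (T.P.γ (i + 1)) 0 ^ (4 * a) ≠ deriv (T.P.γ i) 0 ^ (4 * a)) :
    ∃ W : Set (Fin n × ℝ × ℝ), IsOpen W ∧ W ⊆ T.Y.phase ∧ T.Y.phase ⊆ closure W ∧
      (∀ i : Fin n, ∀ᵐ θ : ℝ, θ ∈ Ioo (-(Real.pi / 2)) (Real.pi / 2) →
        Ioo 0 (T.Y.len i) ⊆ closure {r : ℝ | (i, r, θ) ∈ W}) ∧
      (∀ z ∈ W, ∃ k : ℕ, T.Y.bmap^[k] z ∈ T.Y.phase ∧ (T.Y.bmap^[k] z).1 ∈ T.disp) ∧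
      ∀ i : Fin n, ∀ᵐ x : ℝ × ℝ, (i, x) ∈ W →
        (∀ k : ℕ, T.Y.bmap^[k] (i, x) ∈ T.Y.phase ∧
          (∀ᶠ y in 𝓝 x, (T.Y.bmap^[k] (i, y)).1 = (T.Y.bmap^[k] (i, x)).1) ∧
          DifferentiableAt ℝ (fun y => (T.Y.bmap^[k] (i, y)).2) x) ∧
        ∃ c > 0, ∀ u : ℝ × ℝ, u ≠ 0 → ∃ᶠ k : ℕ in atTop,
          c * k ≤ |Real.log ‖fderiv ℝ (fun y => (T.Y.bmap^[k] (i, y)).2) x u‖| :=
  T.dense_hyperbolic2 hconv hcorner hang

end Pool.Agent.Results.MP_2e716c_an.DenseHyperbolic
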