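import Pool.Agent.H.MP_2e716c_an.Gen.Fin2

/-!
# Generic hyperbolicity of semi-dispersive billiard tables

`T : SemiDisp n` is a semi-dispersive billiard table `T.Y` over a simple polygon `T.P` with `n` sides and
without straight corners; any nonempty set of sides may be the dispersive one.

Move the corners `v i` of the polygon to `v i + δ i` by the diffeomorphism `Φ x = x + ∑ i, h i x * δ i` of the
plane, where the `h i` are any smooth compactly supported functions, affine along every side of the
polygon, `1` at the corner `i` and `0` at the other corners; such functions exist.  For all small `δ` the images of `T.P` and `T.Y` are a simple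
polygon and a semi-dispersive table over it, with the same dispersive sides.  For `δ` in a residual
subset (in the sense of Baire) of a ball of `ℂ^n` this table is hyperbolic: almost everywhere no
Lyapunov exponent vanishes.  In particular every semi-dispersive table is a `C^∞` limit of hyperbolic ones
in every such family, also when neighbouring neutral sides make irrational angles.

Method.  Almost every orbit of `T.Y` meets a dispersive side if every set of neutral sides is unloaded,
rational or separated (hand-in `Hyperbolic`), for instance when all neutral sides have rational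
directions.  That almost every orbit meets a dispersive side is a `G_δ` condition in every family of
tables which is continuous in the `C¹` sense (theorem `principle` below), it holds on the dense set of
displacements with rational directions, and it implies hyperbolicity for every table.
-/

open Pool.Agent.MP2e716c Filter Topology

namespace Pool.Agent.Results.MP_2e716c_an.GenericDisplacement

theorem result {n : ℕ} [NeZero n] (T : SemiDisp n)
    (hcorner : ∀ i, deriv (T.P.γ (i + 1)) 0 ≠ deriv (T.P.γ i) 0) :
    (∃ h : Fin n → ℂ → ℝ, (∀ i, ContDiff ℝ (⊤ : ℕ∞) (h i)) ∧ (∀ i, HasCompactSupport (h i)) ∧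
      T.P.IsHat h) ∧
    ∀ h : Fin n → ℂ → ℝ, (∀ i, ContDiff ℝ (⊤ : ℕ∞) (h i)) → (∀ i, HasCompactSupport (h i)) →
      T.P.IsHat h → ∃ ρ > 0, ∃ F : Metric.ball (0 : Fin n → ℂ) ρ → SemiDisp n,
        (∀ δ, (F δ).disp = T.disp ∧ Table.IsImage (shift h δ.1) T.Y (F δ).Y ∧
          Table.IsImage (shift h δ.1) T.P (F δ).P) ∧
        Table.ContFam (fun δ => (F δ).Y) ∧
        ∀ᶠ δ in residual (Metric.ball (0 : Fin n → ℂ) ρ), (F δ).Y.Hyperbolic :=
  ⟨T.P.exists_hats T.straight hcorner, fun _ hs hk hh => T.generic_displacement hs hk hh⟩

/-- In every family of semi-dispersive tables over a topological space which is continuous in the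
`C¹` sense there is a `G_δ` set of hyperbolic tables which contains all tables satisfying the criterion
of the hand-in `Hyperbolic`. -/
theorem principle {n : ℕ} [NeZero n] {X : Type*} [TopologicalSpace X] (T : X → SemiDisp n)
    (hT : Table.ContFam fun x => (T x).Y) :
    ∃ G : Set X, IsGδ G ∧ (∀ x ∈ G, (T x).Y.Hyperbolic) ∧ ∀ x, (T x).Crit → x ∈ G :=
  ⟨{x | (T x).Hits}, SemiDisp.isGδ_hits hT, fun x hx => (T x).hyperbolic_of_hits hx,
    fun x hx => (T x).hits_of_crit hx⟩

end Pool.Agent.Results.MP_2e716c_an.GenericDisplacement
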