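import Pool.Agent.H.MP_2e716c_an.sg.Main

/-!
# Hyperbolicity of semi-dispersive billiard tables: a criterion on sets of neutral sides

`T : SemiDisp n` is a semi-dispersive billiard table `T.Y` over a simple polygon `T.P` with `n` sides
(definitions in `Pool.Agent.H.MP_2e716c_an.Defs`, `NonAdj` and `sg.Trap`, `sg.TRay`).  If for every
nonempty set `S` of neutral sides

* `S` is unloaded: some affine vector field `x ↦ B x + b` with `⟨B v, v⟩ ≥ 0` points weakly into the
  polygon along every side of `S`, and one of these inequalities is somewhere strict; or
* `S` is rational: any two sides of `S` make an angle in `πℚ`; or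
* `S` is separated: the sides of `S` are pairwise disjoint and no segment in the closed table which
  joins two of them meets a third one; or
* the polygon is convex without straight corners and `S` has no totally trapped corner line: at no
  corner of two sides of `S`, with angle `A`, there is a real `t` such that the three rays from the
  corner with angles `d t`, `d (t + π)`, `d (t - π)`, where `d x` is the distance of `x` to `2 A ℤ`, are
  limits of rays of phase points whose orbits hit only sides of `S`;

then the billiard map of `T.Y` is hyperbolic: almost everywhere no Lyapunov exponent vanishes.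

Examples (proved below): at most two neutral sides, so all semi-dispersive triangles; a common point
of the closed outer half planes of the neutral sides; pairwise rational neutral sides; convex
polygons without adjacent neutral sides, with arbitrary angles; convex polygons such that from each
corner of two neutral sides, with angle `A`, all other neutral sides are seen within an angle smaller
than the distances of `π` and `2 π` to the multiples of `2 A` (or, more generally, such that no three
angles `d t`, `d (t + π)`, `d (t - π)` are angles under which points of other neutral sides are seen).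

Methods: `F (x, v) = ⟨B x + b, v⟩` does not decrease along orbits which only hit an unloaded `S`; for a
rational `S` and all but countably many directions the states form an interval exchange with
exits, in which border points would give saddle connections; for a separated `S` the set of
trapped directions from any point is porous (helper4).  In the last case two close parallel trapped
rays which are separated by a corner pass it on both sides and come from it, so all three rays from
the corner are close to trapped ones; hence close parallel trapped rays hit the same sides for
ever, which is impossible for almost every direction (porosity of the directions of strips).  So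
almost every orbit hits dispersive sides infinitely often, and invariant cones and a density
argument give nonzero Lyapunov exponents.
-/

open Pool.Agent.MP2e716c

namespace Pool.Agent.Results.MP_2e716c_an.Hyperbolic

theorem result {n : ℕ} [NeZero n] (T : SemiDisp n)
    (h : ∀ S : Set (Fin n), S.Nonempty → Disjoint S T.disp →
      T.P.Unloaded S ∨ T.P.Rational S ∨ T.Y.Separated S ∨
        (Convex ℝ T.P.region ∧ (∀ i, deriv (T.P.γ (i + 1)) 0 ≠ deriv (T.P.γ i) 0) ∧
          ¬ T.Y.TotallyTrapped S)) :
    T.Y.Hyperbolic :=
  T.hyperbolic_of_sets' h

/-- At most two neutral sides. -/
theorem at_most_two_neutral {n : ℕ} [NeZero n] (T : SemiDisp n) (h : (T.dispᶜ).ncard ≤ 2) :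
    T.Y.Hyperbolic :=
  T.hyperbolic_of_le_two h

/-- Every semi-dispersive triangle. -/
theorem triangle (T : SemiDisp 3) : T.Y.Hyperbolic := by
  refine T.hyperbolic_of_le_two ?_
  have h1 : (T.disp).ncard + (T.dispᶜ).ncard = 3 := by
    rw [Set.ncard_add_ncard_compl, Nat.card_eq_fintype_card, Fintype.card_fin]
  have h2 : 0 < (T.disp).ncard := (Set.ncard_pos (Set.toFinite _)).2 T.disp_nonempty
  omega

/-- The closed outer half planes of the neutral sides have a common point `O`. -/
theorem common_outer_point {n : ℕ} [NeZero n] (T : SemiDisp n) (O : ℂ) (h : ∀ i, i ∉ T.disp →
    0 ≤ ip (T.P.γ i 0 - O) (Complex.I * deriv (T.P.γ i) 0)) : T.Y.Hyperbolic :=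
  T.hyperbolic_of_common O h

/-- Any two neutral sides make an angle in `πℚ`. -/
theorem rational_neutral {n : ℕ} [NeZero n] (T : SemiDisp n) (h : T.P.Rational T.dispᶜ) :
    T.Y.Hyperbolic :=
  T.hyperbolic_of_rational h

/-- Convex polygon without straight corners, no two neutral sides adjacent. -/
theorem non_adjacent_neutral {n : ℕ} [NeZero n] (T : SemiDisp n) (hconv : Convex ℝ T.P.region)
    (hcorner : ∀ i, deriv (T.P.γ (i + 1)) 0 ≠ deriv (T.P.γ i) 0)
    (h : ∀ i, i ∉ T.disp → i + 1 ∈ T.disp) : T.Y.Hyperbolic :=
  T.hyperbolic_of_nonadjacent hconv hcorner h

/-- Convex polygon without straight corners; from each corner `m` of two neutral sides, with angle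
`A = T.P.cornerAngle m`, any two points of the other neutral sides are seen within an angle smaller
than the distances of `π` and of `2 π` to the multiples of `2 A`. -/
theorem small_neutral {n : ℕ} [NeZero n] (T : SemiDisp n) (hconv : Convex ℝ T.P.region)
    (hcorner : ∀ i, deriv (T.P.γ (i + 1)) 0 ≠ deriv (T.P.γ i) 0)
    (h : ∀ m, m - 1 ∉ T.disp → m ∉ T.disp → ∀ φ ∈ T.P.seen T.dispᶜ m, ∀ ψ ∈ T.P.seen T.dispᶜ m,
      |φ - ψ| < ‖((Real.pi : ℝ) : AddCircle (2 * T.P.cornerAngle m))‖ ∧
      |φ - ψ| < ‖((2 * Real.pi : ℝ) : AddCircle (2 * T.P.cornerAngle m))‖) : T.Y.Hyperbolic :=
  T.hyperbolic_of_small hconv hcorner h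

end Pool.Agent.Results.MP_2e716c_an.Hyperbolic
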